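import Pool.Agent.Y728.MN.Def

/-!
# Parts MA, MF, MH of project MN (helper728): counting elements with few zeros and poles, subsets of
a set of primes, elements of bounded height
-/

set_option autoImplicit false

namespace Pool.Agent.Y93.MN

open NumberField IsDedekindDomain Height Finset Pool.Agent.H951R3.V
open Pool.Agent.H691R3 hiding wt
open Pool.Agent.Y728.MN

variable {K : Type} [Field K] [NumberField K]

lemma wt_nonneg (F : Finset (HeightOneSpectrum (𝓞 K))) : 0 ≤ wt F :=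
  Finset.sum_nonneg fun v _ => (ell_pos v).le

lemma wt_mono {F G : Finset (HeightOneSpectrum (𝓞 K))} (h : F ⊆ G) : wt F ≤ wt G :=
  Finset.sum_le_sum_of_subset_of_nonneg h fun v _ _ => (ell_pos v).le

/-- the weight of the zeros is at most the height -/
lemma wt_zr_le (x : K) : wt (zr x) ≤ logHeight₁ x := by
  by_cases hx : x = 0
  · have h0 : zr x = ∅ := by
      ext v
      simp [mem_zr, hx]
    rw [h0]
    unfold wt
    rw [Finset.sum_empty]
    rw [logHeight₁_eq_log_mulHeight₁]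
    exact Real.log_nonneg (one_le_mulHeight₁ x)
  · rw [← logHeight₁_inv' x]
    refine le_trans (Finset.sum_le_sum fun v hv => ?_) (sum_posLog_le (inv_ne_zero hx) (zr x))
    obtain ⟨_, hlt⟩ := mem_zr.mp hv
    obtain ⟨n, hn⟩ := fv_zpow v hx
    have hn0 : n < 0 := by
      by_contra hcon
      push Not at hcon
      have h1 : (1 : ℝ) ≤ Nv v ^ n := one_le_zpow₀ (by linarith [two_le_Nv v]) hcon
      rw [← hn] at h1
      linarith
    have e1 : fv v x⁻¹ = Nv v ^ (-n) := by rw [map_inv₀, hn, zpow_neg]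
    have e2 : Real.log (fv v x⁻¹) = (-n : ℤ) * ell v := by rw [e1, Real.log_zpow]; rfl
    have h2 : (1 : ℝ) ≤ ((-n : ℤ) : ℝ) := by exact_mod_cast (by omega : (1 : ℤ) ≤ -n)
    have h3 : ell v ≤ Real.log (fv v x⁻¹) := by
      rw [e2]
      nlinarith [ell_pos v]
    exact h3.trans (le_max_right _ _)

lemma fv_eq_one_of_notMem {x : K} (hx : x ≠ 0) {v : HeightOneSpectrum (𝓞 K)} (h1 : v ∉ zr x)
    (h2 : v ∉ zr x⁻¹) : fv v x = 1 := by
  rw [mem_zr] at h1 h2
  push Not at h1 h2
  have h3 := h1 hx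
  have h4 := h2 (inv_ne_zero hx)
  have hpos : 0 < fv v x := (fv v).pos hx
  rw [map_inv₀] at h4
  have h5 : fv v x ≤ 1 := by
    have := inv_le_one_of_one_le₀ h4
    rwa [inv_inv] at this
  exact le_antisymm h5 h3

/-- MA -/
theorem sA (K : Type) [Field K] [NumberField K] : StmtA K := by
  classical
  intro δ hδ
  obtain ⟨C1, hC1, h1⟩ := set_count (K := K) (δ := δ / 4) (by positivity)
  obtain ⟨C2, hC2, h2⟩ := funit_count (K := K) (δ := δ / 4) (by positivity)
  refine ⟨C2 * (C1 * C1), by positivity, fun Y T₁ T₂ hY hT1 hT2 g E hE => ?_⟩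
  set A : K → Finset (HeightOneSpectrum (𝓞 K)) := fun x => zr x \ g with hA
  set B : K → Finset (HeightOneSpectrum (𝓞 K)) := fun x => zr x⁻¹ with hB
  have hcA : ((E.image A).card : ℝ) ≤ C1 * Real.exp ((1 + δ / 4) * (T₁ - wt g)) := by
    refine h1 _ _ fun U hU => ?_
    obtain ⟨x, hx, rfl⟩ := Finset.mem_image.mp hU
    obtain ⟨_, _, hg, hw, _⟩ := hE x hx
    have e : wt (zr x \ g) + wt g = wt (zr x) := Finset.sum_sdiff hg
    show wt (zr x \ g) ≤ _
    linarith
  have hcB : ((E.image B).card : ℝ) ≤ C1 * Real.exp ((1 + δ / 4) * T₂) := by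
    refine h1 _ _ fun U hU => ?_
    obtain ⟨x, hx, rfl⟩ := Finset.mem_image.mp hU
    exact (hE x hx).2.2.2.2
  have hcAB : ((E.image fun x => (A x, B x)).card : ℝ) ≤
      C1 * Real.exp ((1 + δ / 4) * (T₁ - wt g)) * (C1 * Real.exp ((1 + δ / 4) * T₂)) := by
    have h3 : (E.image fun x => (A x, B x)).card ≤ (E.image A).card * (E.image B).card := by
      rw [← Finset.card_product]
      refine Finset.card_le_card fun p hp => ?_
      obtain ⟨x, hx, rfl⟩ := Finset.mem_image.mp hp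
      exact Finset.mem_product.mpr ⟨Finset.mem_image_of_mem _ hx, Finset.mem_image_of_mem _ hx⟩
    calc ((E.image fun x => (A x, B x)).card : ℝ)
        ≤ ((E.image A).card : ℝ) * (E.image B).card := by exact_mod_cast h3
      _ ≤ _ := mul_le_mul hcA hcB (Nat.cast_nonneg _) (by positivity)
  set G : ℕ := ⌊C2 * Real.exp (δ / 4 * (Y + (T₁ + T₂)))⌋₊ with hG
  have hfib : ∀ a ∈ E.image (fun x => (A x, B x)),
      (E.filter (fun x => (A x, B x) = a)).card ≤ G := by
    intro a ha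
    obtain ⟨x₀, hx₀, rfl⟩ := Finset.mem_image.mp ha
    refine Nat.le_floor ?_
    refine (h2 (zr x₀ ∪ zr x₀⁻¹) Y hY (E.filter fun x => (A x, B x) = (A x₀, B x₀)) ?_).trans ?_
    · intro x hx
      rw [Finset.mem_filter] at hx
      obtain ⟨hxE, hxe⟩ := hx
      obtain ⟨hx0, hxY, hgx, _, _⟩ := hE x hxE
      obtain ⟨_, _, hgx₀, _, _⟩ := hE x₀ hx₀
      have e1 : zr x \ g = zr x₀ \ g := (Prod.mk.inj hxe).1
      have e2 : zr x⁻¹ = zr x₀⁻¹ := (Prod.mk.inj hxe).2
      have e3 : zr x = zr x₀ := by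
        rw [← Finset.sdiff_union_of_subset hgx, e1, Finset.sdiff_union_of_subset hgx₀]
      refine ⟨hx0, hxY, fun v hv => ?_⟩
      rw [Finset.mem_union, not_or, ← e3, ← e2] at hv
      exact fv_eq_one_of_notMem hx0 hv.1 hv.2
    · obtain ⟨_, _, _, hw1, hw2⟩ := hE x₀ hx₀
      have h5 : ∑ v ∈ zr x₀ ∪ zr x₀⁻¹, ell v ≤ T₁ + T₂ := by
        have h6 : ∑ v ∈ zr x₀ ∪ zr x₀⁻¹, ell v + ∑ v ∈ zr x₀ ∩ zr x₀⁻¹, ell v =
            ∑ v ∈ zr x₀, ell v + ∑ v ∈ zr x₀⁻¹, ell v := Finset.sum_union_inter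
        have h7 : 0 ≤ ∑ v ∈ zr x₀ ∩ zr x₀⁻¹, ell v := Finset.sum_nonneg fun v _ => (ell_pos v).le
        have h8 : ∑ v ∈ zr x₀, ell v ≤ T₁ := hw1
        have h9 : ∑ v ∈ zr x₀⁻¹, ell v ≤ T₂ := hw2
        linarith
      refine mul_le_mul_of_nonneg_left (Real.exp_le_exp.mpr ?_) hC2.le
      refine mul_le_mul_of_nonneg_left ?_ (by positivity)
      linarith
  have hcard := Finset.card_le_mul_card_image_of_maps_to (s := E)
    (t := E.image fun x => (A x, B x)) (f := fun x => (A x, B x))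
    (fun u hu => Finset.mem_image_of_mem _ hu) G hfib
  have hG2 : (G : ℝ) ≤ C2 * Real.exp (δ / 4 * (Y + (T₁ + T₂))) := Nat.floor_le (by positivity)
  calc (E.card : ℝ) ≤ (G : ℝ) * ((E.image fun x => (A x, B x)).card : ℝ) := by
        exact_mod_cast hcard
    _ ≤ (C2 * Real.exp (δ / 4 * (Y + (T₁ + T₂)))) *
        (C1 * Real.exp ((1 + δ / 4) * (T₁ - wt g)) * (C1 * Real.exp ((1 + δ / 4) * T₂))) :=
        mul_le_mul hG2 hcAB (Nat.cast_nonneg _) (by positivity)
    _ = C2 * (C1 * C1) * Real.exp (δ / 4 * (Y + (T₁ + T₂)) +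
          ((1 + δ / 4) * (T₁ - wt g) + (1 + δ / 4) * T₂)) := by
        rw [Real.exp_add, Real.exp_add]; ring
    _ ≤ C2 * (C1 * C1) * Real.exp (T₁ - wt g + T₂ + δ * (Y + T₁ + T₂)) := by
        refine mul_le_mul_of_nonneg_left (Real.exp_le_exp.mpr ?_) (by positivity)
        have hw := wt_nonneg g
        nlinarith [mul_nonneg hδ.le hY, mul_nonneg hδ.le hT1, mul_nonneg hδ.le hT2,
          mul_nonneg hδ.le hw]

/-- MF -/
theorem sF (K : Type) [Field K] [NumberField K] : StmtF K := by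
  classical
  intro δ hδ
  set T : ℝ := Real.exp (Real.log 2 / δ) with hT
  have hfin := small_finite (K := K) T
  refine ⟨(2 : ℝ) ^ hfin.toFinset.card, by positivity, fun F => ?_⟩
  have hsplit : F.card = (F.filter fun v => Nv v ≤ T).card + (F.filter fun v => ¬ Nv v ≤ T).card :=
    (Finset.card_filter_add_card_filter_not _).symm
  have h1 : (F.filter fun v => Nv v ≤ T).card ≤ hfin.toFinset.card := by
    refine Finset.card_le_card fun v hv => ?_
    rw [Set.Finite.mem_toFinset]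
    exact (Finset.mem_filter.mp hv).2
  have h2 : (2 : ℝ) ^ (F.filter fun v => ¬ Nv v ≤ T).card ≤ Real.exp (δ * wt F) := by
    have e1 : (2 : ℝ) ^ (F.filter fun v => ¬ Nv v ≤ T).card =
        ∏ v ∈ F.filter (fun v => ¬ Nv v ≤ T), (2 : ℝ) := by rw [Finset.prod_const]
    have e2 : ∏ v ∈ F.filter (fun v => ¬ Nv v ≤ T), (2 : ℝ) ≤
        ∏ v ∈ F.filter (fun v => ¬ Nv v ≤ T), Real.exp (δ * ell v) := by
      refine Finset.prod_le_prod (fun _ _ => by norm_num) fun v hv => ?_
      have h3 := (Finset.mem_filter.mp hv).2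
      push Not at h3
      have h4 : Real.log 2 / δ ≤ ell v := by
        have h5 : Real.log T ≤ Real.log (Nv v) := Real.log_le_log (Real.exp_pos _) h3.le
        rwa [hT, Real.log_exp] at h5
      have h6 : Real.log 2 ≤ δ * ell v := by
        rw [div_le_iff₀ hδ] at h4
        linarith
      calc (2 : ℝ) = Real.exp (Real.log 2) := (Real.exp_log (by norm_num)).symm
        _ ≤ _ := Real.exp_le_exp.mpr h6
    have e3 : ∏ v ∈ F.filter (fun v => ¬ Nv v ≤ T), Real.exp (δ * ell v) =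
        Real.exp (δ * wt (F.filter fun v => ¬ Nv v ≤ T)) := by
      rw [← Real.exp_sum, wt, Finset.mul_sum]
    rw [e1]
    refine e2.trans ?_
    rw [e3]
    refine Real.exp_le_exp.mpr (mul_le_mul_of_nonneg_left ?_ hδ.le)
    exact wt_mono (Finset.filter_subset _ _)
  rw [hsplit, pow_add]
  refine mul_le_mul ?_ h2 (by positivity) (by positivity)
  exact pow_le_pow_right₀ (by norm_num) h1

/-- MH -/
theorem sH (K : Type) [Field K] [NumberField K] : StmtH K := by
  classical
  intro δ hδ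
  obtain ⟨C, hC, h⟩ := sA K (δ / 3) (by positivity)
  refine ⟨C + 1, by positivity, fun Y hY E hE => ?_⟩
  have h1 : ((E.erase 0).card : ℝ) ≤ C * Real.exp ((2 + δ) * Y) := by
    refine (h Y Y Y hY hY hY ∅ (E.erase 0) ?_).trans (le_of_eq ?_)
    · intro x hx
      have hx0 := Finset.ne_of_mem_erase hx
      have hxY := hE x (Finset.mem_of_mem_erase hx)
      refine ⟨hx0, hxY, Finset.empty_subset _, (wt_zr_le x).trans hxY, ?_⟩
      refine (wt_zr_le x⁻¹).trans ?_
      rwa [logHeight₁_inv']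
    · congr 2
      have : wt (∅ : Finset (HeightOneSpectrum (𝓞 K))) = 0 := Finset.sum_empty
      rw [this]
      ring
  have h2 : (E.card : ℝ) ≤ (E.erase 0).card + 1 := by
    have h4 : E.card ≤ (E.erase 0).card + 1 := by
      have := Finset.pred_card_le_card_erase (s := E) (a := (0 : K))
      omega
    exact_mod_cast h4
  have h3 : (1 : ℝ) ≤ Real.exp ((2 + δ) * Y) := Real.one_le_exp (by positivity)
  calc (E.card : ℝ) ≤ (E.erase 0).card + 1 := h2
    _ ≤ C * Real.exp ((2 + δ) * Y) + Real.exp ((2 + δ) * Y) := add_le_add h1 h3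
    _ = _ := by ring

end Pool.Agent.Y93.MN
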